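import Pool.Agent.Run7.h301.WC.Main

/-!
# One half of the sign conjecture suffices

Let `W` be a Weil cohomology theory with coefficient field `K` (de Rham cohomology in characteristic
zero, crystalline cohomology over a perfect field, say), on a class of smooth proper varieties closed
under products. For a variety `Y` let `b(Y) = cohDim W Y` be the dimension of its whole cohomology, and
let `c(Y) = evenOddDim W Y` be the dimension of the largest direct summand of the motive `h(Y)`
(homological equivalence, coefficients in `K`) which is the sum of an even and an odd motive. `C⁺(Y)`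
holds if and only if `c(Y) = b(Y)`.

**The ratio law.** Let `M'` and `N'` be indecomposable direct summands of the motives of `Y` and `X`
(coefficients in `K`), with even and odd cohomology of dimensions `(a₀, a₁)` and `(b₀, b₁)`. If
`M' ⊗ N'` has an even direct summand, not zero, then `a₀ ≠ a₁` and `a₀ b₁ = b₀ a₁`; if it has an odd
one, then `a₀ ≠ a₁` and `a₀ b₀ = a₁ b₁`.

**The bound.** For `m = b(Y)` and for `m = b(X)`, and `κ = 1 - 2 (m - 1) / m^2`,

  `c(Y × X) ≤ c(Y) c(X) + κ (b(Y) - c(Y)) (b(X) - c(X))`.

**One half suffices.** If `C⁺(X)` is false, then for each `η > θ(b(X))`, where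
`θ(b) = (b^2 - 2 b + 2) / (2 b^2 - 2 b + 2) < 1 / 2`, there are infinitely many `n` such that
`c(X^n) < η b(X)^n`. So `C⁺(X)` holds if and only if `c(X^n) ≥ b(X^n) / 2` for all large `n`, and `C⁺`
holds for all varieties if and only if `c(X) ≥ b(X) / 2` for all of them.

The proof of the ratio law. Let `y` be the projector to a summand of `M' ⊗ N'` of parity `s`. Its
partial trace over one factor is an endomorphism `T` of an indecomposable motive. Its characteristic
polynomials on the even and the odd part are powers of the same irreducible polynomial, so its traces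
there are proportional to `a₀` and `a₁`. As the parities of the two factors agree up to `s` on the
image of `y`, this gives the traces of `y` on the four blocks in two ways.
-/

set_option autoImplicit false

open CategoryTheory AlgebraicGeometry

universe u v

namespace Pool.Agent.Results.MP_56c18a_ag.OneHalfSuffices

open Pool.Agent.H914 VarClass Obj WeilCohomology Pool.Agent.N103.OC Pool.Agent.TH133.PW
  Pool.Agent.H447 Pool.Agent.N536.HK Pool.Agent.Run7.h301.WC

/-- **The ratio law, and one half suffices.** -/
theorem result {k : Type u} [Field k] {𝒱 : VarClass k} {ops : CycleOps 𝒱}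
    (W : WeilCohomology.{u, v} ops) :
    RatioLaw W ∧
    (∀ Y X : 𝒱.Obj, SharpBound W (cohDim W Y) Y X ∧ SharpBound W (cohDim W X) Y X) ∧
    (∀ X : 𝒱.Obj, ¬ SignStd W X → BelowTheta W X) ∧ (∀ b : ℕ, 2 ≤ b → theta b < 1 / 2) ∧
    OneHalf W :=
  ⟨ratioLaw W, fun Y X => ⟨sharpBound_left W Y X, sharpBound_right W Y X⟩,
    fun _ hC => belowTheta hC, fun _ hb => theta_lt hb, oneHalf W⟩

end Pool.Agent.Results.MP_56c18a_ag.OneHalfSuffices
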