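import Pool.Agent.Run7.h546.OP.Main

/-!
# The sign conjecture from the degrees of one parity on one side of the middle

Let `W` be a Weil cohomology theory over a field of any characteristic (no Lefschetz theorem is
assumed) and `Y` a variety of dimension `d`. Let `𝒜` and `𝒜'` be two sets of correspondences to `Y` such
that `C⁺(X)` holds for all `α : X → Y` in `𝒜`, and such that for `α : X → Y` in `𝒜` and `α' : X' → Y` in
`𝒜'` the numerically trivial classes on `X × X'` of the one codimension `codim α + codim α' - d` act as
zero on `H^i(X)`, for the `i` of a given parity (`SignBase`).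

**Theorem.** Fix a parity. Suppose that for every `j ≥ d` of this parity there are such `𝒜` and `𝒜'`,
which may depend on `j`, such that one of `H^j(Y)`, `H^(2d-j)(Y)` is generated by `𝒜` and the other one
by `𝒜'`. Then `C⁺(Y)` holds. For the parity opposite to the parity of `d` there is no condition on the
middle cohomology, and for `𝒜' = {id : Y → Y}` there is no condition on the other degree: then only one
half of one half of the cohomology has to be generated by `𝒜`.

**Weak Lefschetz is enough.** Let `X` be a smooth hyperplane section of `Y`. By the weak Lefschetz
theorem `H^j(Y)` is the image of `H^(j-2)(X)` for `j > d`. So `C⁺(X)` implies `C⁺(Y)` if numerically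
trivial classes of codimension `d` on `X × Y` act as zero on the `H^i(X)` with `i` of parity opposite to
`d`. For a tower `X_n ⊂ ... ⊂ X_1 ⊂ X_0 = Y` of smooth hyperplane sections `C⁺(Y)` follows from `C⁺(X_n)`
(known if `dim X_n = 2`) and this piece of the conjecture homological = numerical equivalence on the
`X_(i+1) × X_i`. For example, let `Y` be a threefold over a perfect field of characteristic `p`: `C⁺(Y)`
holds if every numerically trivial two-dimensional cycle on `S × Y` acts as zero on `H²(S)`, for one
smooth hyperplane section `S`.

**Any set of degrees.** The same is proved for the projector onto `⊕ H^j(Y)`, `j ∈ S`, where `S` is any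
set of degrees: it is a combination of compositions `Y → X' → X → Y` of the transpose of some `α'`, any
correspondence and some `α`, if and only if `H^j(Y)` is generated by `𝒜` and `H^(2d-j)(Y)` by `𝒜'` for
all `j ∈ S`; and if `S` is symmetric it is algebraic if for all `j ∈ S` one of `H^j(Y)`, `H^(2d-j)(Y)` is
generated by `𝒜_j` and the other one by `𝒜'_j`.

The proof. On the space of the compositions `b : Y → X' → (X, π) → Y`, where `π` is the projector onto
the degrees which are shifted to `S`, the form `(b, b') ↦ Tr(b b')` has finite rank and rational values.
Let `V` and `V'` be the parts generated by `𝒜` in the degrees `j ∈ S` and by `𝒜'` in the dual degrees.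
If `b` is in the radical then `b V` is orthogonal to `V'` (because of the hypothesis on numerically
trivial classes); since the image of `b` is in `V` and `b` kills what is orthogonal to `V'`, we have
`b³ = 0`. So `b` has trace zero, and there is a rational `e` with `Tr(e b) = Tr(b)` for all `b`. By the
same argument `(e - 1) V` is orthogonal to `V'`; so `e` is the identity on `H^j(Y)` if both `H^j(Y)` and
`H^(2d-j)(Y)` are generated as above, and then the transpose of `e` is the identity on `H^(2d-j)(Y)`.
The composition of all `1 - e_j` is the projector onto the complement of `S`. The trace method is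
Jannsen's; helper43's results `RelativeKunneth` (projectors onto single degrees) and `GeneratedParity`
(the whole even or odd part is generated) are the models of the argument.
-/

set_option autoImplicit false

open CategoryTheory Pool.Agent.H914 Pool.Agent.H914.VarClass.Obj Pool.Agent.R903
  Pool.Agent.Run7.h546.OP

universe u v w

namespace Pool.Agent.Results.MP_56c18a_ag.OppositeParity

/-- **The sign conjecture from the degrees of one parity on one side of the middle.** -/
theorem result {k : Type u} [Field k] {𝒱 : VarClass k} {C : ChowTheory.{u, v} 𝒱}
    (W : WeilTheory.{u, v, w} C) (Y : 𝒱.Obj) :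
    (∀ (S : Set ℕ) (𝒜 𝒜' : Set (CorrTo C Y)), IsBaseOn W S 𝒜 𝒜' →
      ((∃ π ∈ through C 𝒜' 𝒜, IsProjOn W Y S π) ↔ GenBoth W S 𝒜 𝒜')) ∧
    (∀ S : Set ℕ, Covered W Y S → ProjAlg W Y S) ∧
    (∀ e : ℕ, (∀ j ∈ par e, Y.dim ≤ j → j ≤ 2 * Y.dim →
        ∃ 𝒜 𝒜' : Set (CorrTo C Y), SignBase W e 𝒜 𝒜' ∧ GenPair W j 𝒜 𝒜') → SignConj W Y) ∧
    ∀ α : CorrTo C Y, SurjAbove W Y α → SignConj W α.src →
      HomNumOn W α.src Y α.codim (par (Y.dim + 1)) → SignConj W Y :=
  ⟨fun _ _ _ h => projector_iff h, fun _ h => proj_of_covered h, fun e h => sign_of_gen e h,
    fun _ hf hC hD => sign_of_surj hf hC hD⟩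

end Pool.Agent.Results.MP_56c18a_ag.OppositeParity
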