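import Pool.Agent.Run7.h488.ZD.Uni

/-!
# The sign conjecture and the number of zeros and poles of the zeta functions of correspondences

For every smooth projective variety `X` and every cycle `z` of codimension `dim X` on `X × X` the
zeta function of `z`, formed with the intersection numbers of the iterates of `z` with the
diagonal, is a rational function; its reciprocal zeros and poles, with their orders, form the
spectrum `m` of `z`. The number `zetaDeg m` of zeros and poles, counted with multiplicities, has a
largest value `D` when `z` varies. This number is defined by intersection theory alone. For every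
Weil cohomology the total Betti number of `X` exceeds `D` by an even number, which is zero if and
only if the projector onto the even cohomology is algebraic. For each `z` there is one polynomial
`g` with rational coefficients such that `g (z)` induces the projector onto the even cohomology for
all the Weil cohomologies for which the degree of the zeta function of `z` is the total Betti
number, or smaller by one only.
-/

set_option autoImplicit false

open CategoryTheory AlgebraicGeometry Polynomial

universe u v

namespace Pool.Agent.Results.MP_56c18a_ag.ZetaDegree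

open Pool.Agent.H914 VarClass Obj WeilCohomology Pool.Agent.H447 Pool.Agent.H578R3.Sgn
open Run7.h488.ZD

variable {k : Type u} [Field k] {𝒱 : VarClass k}

/-- The zeta function of every correspondence on `X` is rational: every cycle `z` of codimension
`dim X` on `X × X` has exactly one spectrum. -/
def ZetaRational (ops : CycleOps 𝒱) (X : 𝒱.Obj) : Prop :=
  ∀ z, (X.prod X).IsCyc X.dim z → ∃! m, Spectrum ops X z m

/-- The number `d` is the degree of the zeta function of the cycle `z` on `X × X`, which has
codimension `dim X`. -/
def IsZetaDegree (ops : CycleOps 𝒱) (X : 𝒱.Obj) (z : (X.prod X).Cycles) (d : ℕ) : Prop :=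
  (X.prod X).IsCyc X.dim z ∧ ∃ m, Spectrum ops X z m ∧ zetaDeg m = d

/-- The degrees of the zeta functions of the correspondences on `X`. -/
def zetaDegrees (ops : CycleOps 𝒱) (X : 𝒱.Obj) : Set ℕ := {d | ∃ z, IsZetaDegree ops X z d}

/-- The total Betti number of `X`. -/
noncomputable def totalBetti {ops : CycleOps 𝒱} (W : WeilCohomology.{u, v} ops) (X : 𝒱.Obj) : ℕ :=
  Module.finrank W.K (W.H X)

/-- The value of the polynomial `g` with rational coefficients at the operator induced by the
cycle `z` is the projector onto the even cohomology of `X`. -/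
def EvenIsValue {ops : CycleOps 𝒱} (W : WeilCohomology.{u, v} ops) (X : 𝒱.Obj)
    (z : (X.prod X).Cycles) (g : ℚ[X]) : Prop :=
  IsEvenProj (W.gr X) (ev (W.corr (W.cl (X.prod X) z)) g)

/-- There is one polynomial `g` such that `g (z)` induces the projector onto the even cohomology
for all the Weil cohomologies in which the total Betti number of `X` is at most `d + 1`. -/
def OnePolynomial (ops : CycleOps 𝒱) (X : 𝒱.Obj) (z : (X.prod X).Cycles) (d : ℕ) : Prop :=
  ∃ g : ℚ[X], ∀ W : WeilCohomology.{u, v} ops, totalBetti W X ≤ d + 1 → EvenIsValue W X z g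

/-- The total Betti number exceeds `D` by an even number, which is zero if and only if the
projector onto the even cohomology is algebraic. -/
def Detects {ops : CycleOps 𝒱} (W : WeilCohomology.{u, v} ops) (X : 𝒱.Obj) (D : ℕ) : Prop :=
  (∃ r : ℕ, totalBetti W X = D + 2 * r) ∧ (SignStd W X ↔ totalBetti W X = D)

/-- **Zeta degrees and the sign conjecture.** -/
theorem result (ops : CycleOps 𝒱) (X : 𝒱.Obj) (W₀ : WeilCohomology.{u, v} ops) :
    ZetaRational ops X ∧
    (∀ z d, IsZetaDegree ops X z d → OnePolynomial.{u, v} ops X z d) ∧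
    ∃ D, IsGreatest (zetaDegrees ops X) D ∧
      ∀ W : WeilCohomology.{u, v} ops, Detects W X D := by
  obtain ⟨hu, hb, -, -⟩ := one_W W₀ X
  have hne : (zetaDegrees ops X).Nonempty := by
    obtain ⟨m, hm, -⟩ := hu 0 (SmVar.IsCyc.zero _ _)
    exact ⟨zetaDeg m, 0, SmVar.IsCyc.zero _ _, m, hm, rfl⟩
  have hbdd : BddAbove (zetaDegrees ops X) := by
    refine ⟨Module.finrank W₀.K (W₀.H X), ?_⟩
    rintro d ⟨z, hz, m, hm, rfl⟩
    exact (hb z m hz hm).1
  have hmem := Nat.sSup_mem hne hbdd
  refine ⟨hu, ?_, sSup (zetaDegrees ops X), ⟨hmem, fun d hd => le_csSup hbdd hd⟩, fun W => ?_⟩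
  · rintro z d ⟨hz, m, hm, rfl⟩
    exact uniform W₀ hz m hm
  obtain ⟨-, hb', hs, hs'⟩ := one_W W X
  obtain ⟨z₀, hz₀, m₀, hm₀, h₀⟩ := hmem
  obtain ⟨h1, h2, z', m', hz', hm', hle, r, hr⟩ := hb' z₀ m₀ hz₀ hm₀
  have h3 : zetaDeg m' ≤ sSup (zetaDegrees ops X) := le_csSup hbdd ⟨z', hz', m', hm', rfl⟩
  refine ⟨⟨r, ?_⟩, ⟨?_, ?_⟩⟩
  · rw [totalBetti]
    omega
  · intro h
    obtain ⟨z, m, hz, hm, h4⟩ := hs h
    have h5 : zetaDeg m ≤ sSup (zetaDegrees ops X) := le_csSup hbdd ⟨z, hz, m, hm, rfl⟩
    rw [totalBetti]
    omega
  · intro h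
    rw [totalBetti] at h
    obtain ⟨g, hg⟩ := h2 (by omega)
    refine hs' (opOf W hz₀) g ?_
    rw [subtype_aeval]
    exact hg

end Pool.Agent.Results.MP_56c18a_ag.ZetaDegree
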